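import Pool.Agent.H87.F14.C

/-!
Part A6 of MP_39c6f6_co : edge cuts of size 3 isolate a vertex.
-/

set_option autoImplicit false
set_option linter.unusedSectionVars false
set_option linter.unusedVariables false

noncomputable section

open Classical

namespace Pool.Agent.H87.F14

open Pool.Agent.H32.F14

section
variable {V D : Type} [Fintype V] [Fintype D]

/-- a 3-cut: join the first two edges, the third one gets a leaf -/
theorem gad_pair (G : DG V D) (hG : MinCex G) (K : Finset V) (a b c : D)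
    (hab : a ≠ b) (hac : a ≠ c) (hbc : b ≠ c)
    (hK : G.bdry K = {a, b, c}) (hlt : 1 < (G.dartsOn K).card) :
    ∃ f : D → Bool, G.ValidOn Kᶜ f ∧ f a = f b := by
  have ha : a ∈ G.bdry K := by rw [hK]; simp
  have hb : b ∈ G.bdry K := by rw [hK]; simp
  have hc : c ∈ G.bdry K := by rw [hK]; simp
  let π : ({b // b ∈ G.bdry K} ⊕ Unit) → ({b // b ∈ G.bdry K} ⊕ Unit) := fun x =>
    match x with
    | Sum.inl d => if d.1 = a then Sum.inl ⟨b, hb⟩ else if d.1 = b then Sum.inl ⟨a, ha⟩
        else Sum.inr ()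
    | Sum.inr _ => Sum.inl ⟨c, hc⟩
  have hmem : ∀ d : {b // b ∈ G.bdry K}, d.1 = a ∨ d.1 = b ∨ d.1 = c := by
    rintro ⟨d, hd⟩
    rw [hK] at hd
    simpa using hd
  obtain ⟨f, g, h1, h2, h3⟩ := gadget V D G hG K Unit Unit (fun _ => ())
    (by
      intro w
      left
      rw [Finset.card_eq_one]
      exact ⟨(), by ext x; simp⟩)
    (by simpa using hlt) π
    (by
      intro x
      cases x with
      | inl d =>
        rcases hmem d with h | h | h
        · have : d = ⟨a, ha⟩ := Subtype.ext h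
          subst this
          simp [π, hab.symm]
        · have : d = ⟨b, hb⟩ := Subtype.ext h
          subst this
          simp [π, hab.symm]
        · have : d = ⟨c, hc⟩ := Subtype.ext h
          subst this
          simp [π, hac.symm, hbc.symm]
      | inr w => simp [π, hac.symm, hbc.symm])
    (by
      intro x
      cases x with
      | inl d =>
        rcases hmem d with h | h | h
        · have : d = ⟨a, ha⟩ := Subtype.ext h
          subst this
          simp [π, hab.symm]
        · have : d = ⟨b, hb⟩ := Subtype.ext h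
          subst this
          simp [π, hab.symm, hab]
        · have : d = ⟨c, hc⟩ := Subtype.ext h
          subst this
          simp [π, hac.symm, hbc.symm]
      | inr w => simp [π])
  refine ⟨f, h1, ?_⟩
  have := h3 (Sum.inl ⟨b, hb⟩)
  simpa [π, hab.symm] using this

/-- a 3-cut: a new vertex of degree 3 -/
theorem gad_three (G : DG V D) (hG : MinCex G) (K : Finset V) (a b c : D)
    (hab : a ≠ b) (hac : a ≠ c) (hbc : b ≠ c)
    (hK : G.bdry K = {a, b, c}) (hlt : 3 < (G.dartsOn K).card) :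
    ∃ f : D → Bool, G.ValidOn Kᶜ f ∧ ¬ (f a = f b ∧ f b = f c) := by
  have hcard : (G.bdry K).card = 3 := by
    rw [hK, Finset.card_eq_three]
    exact ⟨a, b, c, hab, hac, hbc, rfl⟩
  obtain ⟨f, ε, d, h1, h2, h3, h4⟩ := gad_vertex' G hG K 3 (Or.inr (Or.inl rfl)) hcard hlt
  refine ⟨f, h1, ?_⟩
  rintro ⟨e1, e2⟩
  have ha : a ∈ G.bdry K := by rw [hK]; simp
  have hb : b ∈ G.bdry K := by rw [hK]; simp
  have hc : c ∈ G.bdry K := by rw [hK]; simp
  have hd : d = a ∨ d = b ∨ d = c := by
    rw [hK] at h2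
    simpa using h2
  have hae : f a = ε := by
    rcases hd with h | h | h
    · rw [← h]; exact h3
    · rw [e1, ← h]; exact h3
    · rw [e1, e2, ← h]; exact h3
  have q1 := h4 a ha hae
  have q2 := h4 b hb (by rw [← e1]; exact hae)
  exact hab (q1.trans q2.symm)

/-- at least four darts -/
theorem four_darts (hA2 : StmtA2) (G : DG V D) (hG : MinCex G) (K : Finset V) (hK : 2 ≤ K.card) :
    3 < (G.dartsOn K).card := by
  obtain ⟨u, hu, v, hv, huv⟩ := Finset.one_lt_card.1 (show 1 < K.card by omega)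
  have h1 : ({u, v} : Finset V) ⊆ K := by
    intro x hx
    simp only [Finset.mem_insert, Finset.mem_singleton] at hx
    rcases hx with rfl | rfl
    · exact hu
    · exact hv
  have h2 : G.deg u + G.deg v ≤ (G.dartsOn K).card := by
    rw [card_dartsOn]
    have := Finset.sum_le_sum_of_subset (f := fun x => G.deg x) h1
    rw [Finset.sum_pair huv] at this
    exact this
  have du := hG.deg135 u
  have dv := hG.deg135 v
  by_contra hcon
  have : G.deg u = 1 ∧ G.deg v = 1 := by omega
  exact huv (hA2 V D G hG u v this.1 this.2)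

end

/-- combinatorics of the patterns -/
theorem pattern_meet (P Q : Bool → Bool → Bool → Prop)
    (hP : ∀ x y z, P x y z → P (!x) (!y) (!z)) (hQ : ∀ x y z, Q x y z → Q (!x) (!y) (!z))
    (P1 : ∃ x z, P x x z) (P2 : ∃ x y, P x y y) (P3 : ∃ x y, P x y x)
    (P4 : ∃ x y z, P x y z ∧ ¬ (x = y ∧ y = z))
    (Q1 : ∃ x z, Q x x z) (Q2 : ∃ x y, Q x y y) (Q3 : ∃ x y, Q x y x)
    (Q4 : ∃ x y z, Q x y z ∧ ¬ (x = y ∧ y = z)) : ∃ x y z, P x y z ∧ Q x y z := by
  have flip : ∀ (R : Bool → Bool → Bool → Prop), (∀ x y z, R x y z → R (!x) (!y) (!z)) →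
      (∃ x z, R x x z) → (∃ x y, R x y y) → (∃ x y, R x y x) →
      (∃ x y z, R x y z ∧ ¬ (x = y ∧ y = z)) →
      (R false false false ∨ R false false true) ∧ (R false false false ∨ R true false false) ∧
      (R false false false ∨ R false true false) ∧
      (R false false true ∨ R true false false ∨ R false true false) := by
    intro R hR r1 r2 r3 r4
    refine ⟨?_, ?_, ?_, ?_⟩
    · obtain ⟨x, z, h⟩ := r1
      have h' := hR _ _ _ h
      cases x <;> cases z
      · exact Or.inl h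
      · exact Or.inr h
      · exact Or.inr h'
      · exact Or.inl h'
    · obtain ⟨x, z, h⟩ := r2
      have h' := hR _ _ _ h
      cases x <;> cases z
      · exact Or.inl h
      · exact Or.inr h'
      · exact Or.inr h
      · exact Or.inl h'
    · obtain ⟨x, z, h⟩ := r3
      have h' := hR _ _ _ h
      cases x <;> cases z
      · exact Or.inl h
      · exact Or.inr h
      · exact Or.inr h'
      · exact Or.inl h'
    · obtain ⟨x, y, z, h, h2⟩ := r4
      have h' := hR _ _ _ h
      cases x <;> cases y <;> cases z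
      · exact absurd ⟨rfl, rfl⟩ h2
      · exact Or.inl h
      · exact Or.inr (Or.inr h)
      · exact Or.inr (Or.inl h')
      · exact Or.inr (Or.inl h)
      · exact Or.inr (Or.inr h')
      · exact Or.inl h'
      · exact absurd ⟨rfl, rfl⟩ h2
  obtain ⟨p1, p2, p3, p4⟩ := flip P hP P1 P2 P3 P4
  obtain ⟨q1, q2, q3, q4⟩ := flip Q hQ Q1 Q2 Q3 Q4
  by_cases h0 : P false false false
  · by_cases k0 : Q false false false
    · exact ⟨_, _, _, h0, k0⟩
    · rcases p4 with h | h | h
      · exact ⟨_, _, _, h, q1.resolve_left k0⟩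
      · exact ⟨_, _, _, h, q2.resolve_left k0⟩
      · exact ⟨_, _, _, h, q3.resolve_left k0⟩
  · rcases q4 with h | h | h
    · exact ⟨_, _, _, p1.resolve_left h0, h⟩
    · exact ⟨_, _, _, p2.resolve_left h0, h⟩
    · exact ⟨_, _, _, p3.resolve_left h0, h⟩

theorem a6 (hA2 : StmtA2) : StmtA6 := by
  intro V D _ _ G hG K h3
  by_contra hcon
  push Not at hcon
  obtain ⟨hK1, hK2⟩ := hcon
  obtain ⟨a, b, c, hab, hac, hbc, hK⟩ := Finset.card_eq_three.1 h3
  have ha : a ∈ G.bdry K := by rw [hK]; simp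
  have hb : b ∈ G.bdry K := by rw [hK]; simp
  have hc : c ∈ G.bdry K := by rw [hK]; simp
  have ha' := (mem_bdry G K a).1 ha
  have hb' := (mem_bdry G K b).1 hb
  have hc' := (mem_bdry G K c).1 hc
  have hKne : 2 ≤ K.card := by
    have : 0 < K.card := Finset.card_pos.2 ⟨_, ha'.1⟩
    omega
  have hKcne : 2 ≤ Kᶜ.card := by
    have : 0 < Kᶜ.card := Finset.card_pos.2 ⟨_, Finset.mem_compl.2 ha'.2⟩
    omega
  have hinj : ∀ d d', G.inv d = G.inv d' → d = d' := by
    intro d d' h
    rw [← G.inv_inv d, ← G.inv_inv d', h]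
  have hKc : G.bdry Kᶜ = {G.inv a, G.inv b, G.inv c} := by
    ext d
    rw [mem_bdry]
    simp only [Finset.mem_compl, not_not, Finset.mem_insert, Finset.mem_singleton]
    constructor
    · rintro ⟨h1, h2⟩
      have : G.inv d ∈ G.bdry K := by rw [mem_bdry, G.inv_inv]; exact ⟨h2, h1⟩
      rw [hK] at this
      simp only [Finset.mem_insert, Finset.mem_singleton] at this
      rcases this with h | h | h
      · left; rw [← h, G.inv_inv]
      · right; left; rw [← h, G.inv_inv]
      · right; right; rw [← h, G.inv_inv]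
    · rintro (h | h | h) <;> subst h <;> rw [G.inv_inv]
      · exact ⟨ha'.2, ha'.1⟩
      · exact ⟨hb'.2, hb'.1⟩
      · exact ⟨hc'.2, hc'.1⟩
  have l1 := four_darts hA2 G hG K hKne
  have l2 := four_darts hA2 G hG Kᶜ hKcne
  -- values at the cut for labellings valid on K^c
  let P : Bool → Bool → Bool → Prop := fun x y z => ∃ f, G.ValidOn Kᶜ f ∧ f a = x ∧ f b = y ∧ f c = z
  let Q : Bool → Bool → Bool → Prop := fun x y z => ∃ f, G.ValidOn K f ∧ f a = x ∧ f b = y ∧ f c = z
  have hmeet : ∃ x y z, P x y z ∧ Q x y z := by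
    have perm1 : ({a, b, c} : Finset D) = {b, c, a} := by ext d; simp; tauto
    have perm2 : ({a, b, c} : Finset D) = {a, c, b} := by ext d; simp; tauto
    have qerm1 : ({G.inv a, G.inv b, G.inv c} : Finset D) = {G.inv b, G.inv c, G.inv a} := by
      ext d; simp; tauto
    have qerm2 : ({G.inv a, G.inv b, G.inv c} : Finset D) = {G.inv a, G.inv c, G.inv b} := by
      ext d; simp; tauto
    have hQv : ∀ f, G.ValidOn K f → f (G.inv a) = f a ∧ f (G.inv b) = f b ∧ f (G.inv c) = f c :=
      fun f hf => ⟨hf.1 a ha'.1, hf.1 b hb'.1, hf.1 c hc'.1⟩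
    apply pattern_meet P Q
    · rintro x y z ⟨f, h1, rfl, rfl, rfl⟩
      exact ⟨_, validOn_not G _ f h1, rfl, rfl, rfl⟩
    · rintro x y z ⟨f, h1, rfl, rfl, rfl⟩
      exact ⟨_, validOn_not G _ f h1, rfl, rfl, rfl⟩
    · obtain ⟨f, h1, h2⟩ := gad_pair G hG K a b c hab hac hbc hK (by omega)
      exact ⟨f a, f c, f, h1, rfl, h2.symm, rfl⟩
    · obtain ⟨f, h1, h2⟩ := gad_pair G hG K b c a hbc hab.symm hac.symm (by rw [hK, perm1]) (by omega)
      exact ⟨f a, f b, f, h1, rfl, rfl, h2.symm⟩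
    · obtain ⟨f, h1, h2⟩ := gad_pair G hG K a c b hac hab hbc.symm (by rw [hK, perm2]) (by omega)
      exact ⟨f a, f b, f, h1, rfl, rfl, h2.symm⟩
    · obtain ⟨f, h1, h2⟩ := gad_three G hG K a b c hab hac hbc hK (by omega)
      exact ⟨f a, f b, f c, ⟨f, h1, rfl, rfl, rfl⟩, h2⟩
    · obtain ⟨f, h1, h2⟩ := gad_pair G hG Kᶜ (G.inv a) (G.inv b) (G.inv c)
        (fun h => hab (hinj _ _ h)) (fun h => hac (hinj _ _ h)) (fun h => hbc (hinj _ _ h)) hKc
        (by omega)
      rw [compl_compl] at h1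
      obtain ⟨e1, e2, e3⟩ := hQv f h1
      rw [e1, e2] at h2
      exact ⟨f a, f c, f, h1, rfl, h2.symm, rfl⟩
    · obtain ⟨f, h1, h2⟩ := gad_pair G hG Kᶜ (G.inv b) (G.inv c) (G.inv a)
        (fun h => hbc (hinj _ _ h)) (fun h => hab (hinj _ _ h).symm) (fun h => hac (hinj _ _ h).symm)
        (by rw [hKc, qerm1]) (by omega)
      rw [compl_compl] at h1
      obtain ⟨e1, e2, e3⟩ := hQv f h1
      rw [e2, e3] at h2
      exact ⟨f a, f b, f, h1, rfl, rfl, h2.symm⟩
    · obtain ⟨f, h1, h2⟩ := gad_pair G hG Kᶜ (G.inv a) (G.inv c) (G.inv b)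
        (fun h => hac (hinj _ _ h)) (fun h => hab (hinj _ _ h)) (fun h => hbc (hinj _ _ h).symm)
        (by rw [hKc, qerm2]) (by omega)
      rw [compl_compl] at h1
      obtain ⟨e1, e2, e3⟩ := hQv f h1
      rw [e1, e3] at h2
      exact ⟨f a, f b, f, h1, rfl, rfl, h2.symm⟩
    · obtain ⟨f, h1, h2⟩ := gad_three G hG Kᶜ (G.inv a) (G.inv b) (G.inv c)
        (fun h => hab (hinj _ _ h)) (fun h => hac (hinj _ _ h)) (fun h => hbc (hinj _ _ h)) hKc
        (by omega)
      rw [compl_compl] at h1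
      obtain ⟨e1, e2, e3⟩ := hQv f h1
      rw [e1, e2, e3] at h2
      exact ⟨f a, f b, f c, ⟨f, h1, rfl, rfl, rfl⟩, h2⟩
  obtain ⟨x, y, z, ⟨f, f1, f2, f3, f4⟩, ⟨g, g1, g2, g3, g4⟩⟩ := hmeet
  apply hG.nosol
  apply glue V D G K g f g1 f1
  intro d hd
  rw [hK] at hd
  simp only [Finset.mem_insert, Finset.mem_singleton] at hd
  rcases hd with h | h | h <;> subst h
  · rw [g2, f2]
  · rw [g3, f3]
  · rw [g4, f4]

end Pool.Agent.H87.F14
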