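import Pool.Agent.H87.F14.A8

/-!
Part C of MP_39c6f6_co : no bipartite piece with all edges of `X` into `Y`, `|Y| = |X| + 1`.
-/

set_option autoImplicit false
set_option linter.unusedSectionVars false
set_option linter.unusedVariables false

noncomputable section

open Classical

namespace Pool.Agent.H87.F14

open Pool.Agent.H32.F14

section
variable {V D : Type} [Fintype V] [Fintype D]

/-- neighbours of `Q` -/
def nbr (G : DG V D) (Q : Finset V) : Finset V :=
  (G.dartsOn Q).image (fun d => G.att (G.inv d))

theorem mem_nbr (G : DG V D) (Q : Finset V) (v : V) :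
    v ∈ nbr G Q ↔ ∃ d, G.att d ∈ Q ∧ G.att (G.inv d) = v := by
  unfold nbr
  rw [Finset.mem_image]
  constructor
  · rintro ⟨d, h1, h2⟩; exact ⟨d, (mem_dartsOn G Q d).1 h1, h2⟩
  · rintro ⟨d, h1, h2⟩; exact ⟨d, (mem_dartsOn G Q d).2 h1, h2⟩

/-- number of darts on a set -/
theorem card_dartsOn (G : DG V D) (Q : Finset V) : (G.dartsOn Q).card = ∑ v ∈ Q, G.deg v := by
  have h := Finset.card_eq_sum_card_fiberwise (f := G.att) (s := G.dartsOn Q) (t := Q)
    (fun d hd => (mem_dartsOn G Q d).1 hd)
  rw [h]
  apply Finset.sum_congr rfl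
  intro v hv
  unfold DG.deg
  congr 1
  ext d
  simp only [Finset.mem_filter, mem_dartsOn, mem_darts]
  constructor
  · rintro ⟨_, h⟩; exact h
  · intro h; exact ⟨by rw [h]; exact hv, h⟩

theorem card_dartsOn5 (G : DG V D) (Q : Finset V) (h : ∀ x ∈ Q, G.deg x = 5) :
    (G.dartsOn Q).card = 5 * Q.card := by
  rw [card_dartsOn, Finset.sum_congr rfl h]
  simp [mul_comm]

/-- darts at `P` whose partner is at `Q` -/
def btw (G : DG V D) (P Q : Finset V) : Finset D :=
  Finset.univ.filter (fun d => G.att d ∈ P ∧ G.att (G.inv d) ∈ Q)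

theorem mem_btw (G : DG V D) (P Q : Finset V) (d : D) :
    d ∈ btw G P Q ↔ G.att d ∈ P ∧ G.att (G.inv d) ∈ Q := by
  simp [btw]

theorem card_btw_comm (G : DG V D) (P Q : Finset V) : (btw G P Q).card = (btw G Q P).card := by
  apply Finset.card_bij (i := fun d _ => G.inv d)
  · intro d hd
    rw [mem_btw] at *
    rw [G.inv_inv]
    exact ⟨hd.2, hd.1⟩
  · intro d _ d' _ h
    rw [← G.inv_inv d, ← G.inv_inv d', h]
  · intro d hd
    rw [mem_btw] at hd
    exact ⟨G.inv d, by rw [mem_btw, G.inv_inv]; exact ⟨hd.2, hd.1⟩, G.inv_inv d⟩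

theorem btw_subset (G : DG V D) (P Q : Finset V) : btw G P Q ⊆ G.dartsOn P := by
  intro d hd
  rw [mem_btw] at hd
  rw [mem_dartsOn]
  exact hd.1

/-- Hall's condition with surplus one for bipartite pieces -/
theorem nbr_card (hA1 : StmtA1) (G : DG V D) (hG : MinCex G) (X Y : Finset V)
    (hXY : Disjoint X Y) (hX5 : ∀ x ∈ X, G.deg x = 5) (hY5 : ∀ y ∈ Y, G.deg y = 5)
    (hXd : ∀ d, G.att d ∈ X → G.att (G.inv d) ∈ Y) (hc : X.card < Y.card)
    (Q : Finset V) (hQ : Q ⊆ X) (hQne : Q.Nonempty) : Q.card + 1 ≤ (nbr G Q).card := by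
  have hN : nbr G Q ⊆ Y := by
    intro v hv
    rw [mem_nbr] at hv
    obtain ⟨d, h1, h2⟩ := hv
    rw [← h2]; exact hXd d (hQ h1)
  have e1 : (btw G Q (nbr G Q)) = G.dartsOn Q := by
    ext d
    rw [mem_btw, mem_dartsOn]
    constructor
    · exact fun h => h.1
    · intro h; exact ⟨h, (mem_nbr G Q _).2 ⟨d, h, rfl⟩⟩
  have e2 : (btw G (nbr G Q) Q).card = 5 * Q.card := by
    rw [card_btw_comm, e1, card_dartsOn5 G Q (fun x hx => hX5 x (hQ hx))]
  have e3 : (G.dartsOn (nbr G Q)).card = 5 * (nbr G Q).card :=
    card_dartsOn5 G _ (fun y hy => hY5 y (hN hy))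
  have hle := Finset.card_le_card (btw_subset G (nbr G Q) Q)
  by_contra hcon
  have heq : (nbr G Q).card = Q.card := by omega
  have hall : btw G (nbr G Q) Q = G.dartsOn (nbr G Q) :=
    Finset.eq_of_subset_of_card_le (btw_subset G _ _) (by omega)
  -- closed set
  obtain ⟨b, hb⟩ := hA1 V D G hG (Q ∪ nbr G Q) (by
    obtain ⟨q, hq⟩ := hQne
    exact ⟨q, Finset.mem_union_left _ hq⟩) (by
    intro hcon2
    have hlt : (nbr G Q).card < Y.card := by
      have := Finset.card_le_card hQ
      omega
    obtain ⟨y, hy, hy2⟩ := Finset.exists_mem_notMem_of_card_lt_card hlt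
    have : y ∈ Q ∪ nbr G Q := by rw [hcon2]; exact Finset.mem_univ _
    rw [Finset.mem_union] at this
    rcases this with h | h
    · exact (Finset.disjoint_left.1 hXY (hQ h)) hy
    · exact hy2 h)
  rw [mem_bdry, Finset.mem_union, Finset.mem_union] at hb
  obtain ⟨h1 | h1, h2⟩ := hb
  · apply h2; right; exact (mem_nbr G Q _).2 ⟨b, h1, rfl⟩
  · apply h2; left
    have : b ∈ G.dartsOn (nbr G Q) := (mem_dartsOn G _ b).2 h1
    rw [← hall, mem_btw] at this
    exact this.2

end

theorem c_part (hA1 : StmtA1) : StmtC := by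
  intro V D _ _ G hG X Y hXne hXY hX5 hY5 hInd hXd hcard
  have hbd : ∀ b ∈ G.bdry (X ∪ Y), G.att b ∈ Y := by
    intro b hb
    rw [mem_bdry, Finset.mem_union, Finset.mem_union] at hb
    obtain ⟨h1 | h1, h2⟩ := hb
    · exact absurd (Or.inr (hXd b h1)) h2
    · exact h1
  -- number of boundary darts
  have hb5 : (G.bdry (X ∪ Y)).card = 5 := by
    have e1 : (btw G X Y) = G.dartsOn X := by
      ext d
      rw [mem_btw, mem_dartsOn]
      exact ⟨fun h => h.1, fun h => ⟨h, hXd d h⟩⟩
    have e2 : (btw G Y X).card = 5 * X.card := by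
      rw [card_btw_comm, e1, card_dartsOn5 G X hX5]
    have e3 : (G.dartsOn Y).card = 5 * Y.card := card_dartsOn5 G Y hY5
    have e4 : G.dartsOn Y = btw G Y X ∪ G.bdry (X ∪ Y) := by
      ext d
      rw [Finset.mem_union, mem_dartsOn, mem_btw, mem_bdry]
      constructor
      · intro h
        by_cases h2 : G.att (G.inv d) ∈ X
        · left; exact ⟨h, h2⟩
        · right
          refine ⟨Finset.mem_union_right _ h, ?_⟩
          rw [Finset.mem_union]
          rintro (h3 | h3)
          · exact h2 h3
          · exact hInd d h h3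
      · rintro (h | h)
        · exact h.1
        · exact hbd d ((mem_bdry G _ d).2 h)
    have e5 : Disjoint (btw G Y X) (G.bdry (X ∪ Y)) := by
      rw [Finset.disjoint_left]
      intro d h1 h2
      rw [mem_btw] at h1
      rw [mem_bdry] at h2
      exact h2.2 (Finset.mem_union_left _ h1.2)
    rw [e4, Finset.card_union_of_disjoint e5] at e3
    omega
  have hK1 := Pool.Agent.H87.F14.a8 V D G hG (X ∪ Y) hb5 (by
    intro b hb
    have hp : G.att b ∈ Y := hbd b hb
    have hb' := (mem_bdry G _ b).1 hb
    -- Hall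
    have hall : ∃ μ : {x // x ∈ X} → V, Function.Injective μ ∧
        ∀ x, μ x ∈ (nbr G {x.1}).erase (G.att b) := by
      rw [← Finset.all_card_le_biUnion_card_iff_exists_injective]
      intro s
      rcases s.eq_empty_or_nonempty with hs | hs
      · subst hs; simp
      have hQ : (s.image (fun x : {x // x ∈ X} => x.1)) ⊆ X := by
        intro v hv
        rw [Finset.mem_image] at hv
        obtain ⟨x, _, rfl⟩ := hv
        exact x.2
      have h1 := nbr_card hA1 G hG X Y hXY hX5 hY5 hXd (by omega) _ hQ (hs.image _)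
      rw [Finset.card_image_of_injective _ Subtype.val_injective] at h1
      have h2 : (nbr G (s.image (fun x : {x // x ∈ X} => x.1))).erase (G.att b) ⊆
          s.biUnion (fun x => (nbr G {x.1}).erase (G.att b)) := by
        intro v hv
        rw [Finset.mem_erase, mem_nbr] at hv
        obtain ⟨hv1, d, hd1, hd2⟩ := hv
        rw [Finset.mem_image] at hd1
        obtain ⟨x, hx, hxd⟩ := hd1
        rw [Finset.mem_biUnion]
        refine ⟨x, hx, ?_⟩
        rw [Finset.mem_erase, mem_nbr]
        refine ⟨hv1, d, ?_, hd2⟩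
        rw [Finset.mem_singleton]; exact hxd.symm
      have h3 := Finset.card_le_card h2
      have h4 := Finset.pred_card_le_card_erase
        (s := nbr G (s.image (fun x : {x // x ∈ X} => x.1))) (a := G.att b)
      omega
    obtain ⟨μ, hμi, hμ⟩ := hall
    have hμd : ∀ x : {x // x ∈ X}, ∃ d, G.att d = x.1 ∧ G.att (G.inv d) = μ x := by
      intro x
      have := hμ x
      rw [Finset.mem_erase, mem_nbr] at this
      obtain ⟨_, d, h1, h2⟩ := this
      exact ⟨d, by simpa using h1, h2⟩
    choose δ hδ1 hδ2 using hμd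
    have hμY : ∀ x, μ x ∈ Y := by
      intro x
      rw [← hδ2 x]
      exact hXd _ (by rw [hδ1 x]; exact x.2)
    have hμp : ∀ x, μ x ≠ G.att b := by
      intro x
      have := hμ x
      rw [Finset.mem_erase] at this
      exact this.1
    have hsurj : ∀ y ∈ Y, y ≠ G.att b → ∃ x, μ x = y := by
      have himg : (Finset.univ.image μ) = Y.erase (G.att b) := by
        apply Finset.eq_of_subset_of_card_le
        · intro v hv
          rw [Finset.mem_image] at hv
          obtain ⟨x, _, rfl⟩ := hv
          rw [Finset.mem_erase]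
          exact ⟨hμp x, hμY x⟩
        · rw [Finset.card_image_of_injective _ hμi, Finset.card_erase_of_mem hp]
          simp [hcard]
      intro y hy hyp
      have : y ∈ Finset.univ.image μ := by
        rw [himg, Finset.mem_erase]; exact ⟨hyp, hy⟩
      rw [Finset.mem_image] at this
      obtain ⟨x, _, hx⟩ := this
      exact ⟨x, hx⟩
    refine ⟨Finset.univ.image δ ∪ Finset.univ.image (fun x => G.inv (δ x)), ?_, ?_, ?_, ?_⟩
    · intro d hd
      rw [Finset.mem_union, Finset.mem_image, Finset.mem_image] at *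
      rcases hd with ⟨x, hx, rfl⟩ | ⟨x, hx, rfl⟩
      · right; exact ⟨x, hx, rfl⟩
      · left; exact ⟨x, hx, (G.inv_inv _).symm⟩
    · intro d hd
      rw [Finset.mem_union, Finset.mem_image, Finset.mem_image] at hd
      rw [Finset.mem_union]
      rcases hd with ⟨x, hx, rfl⟩ | ⟨x, hx, rfl⟩
      · left; rw [hδ1]; exact x.2
      · right; rw [hδ2]; exact hμY x
    · intro hcon
      rw [Finset.mem_union, Finset.mem_image, Finset.mem_image] at hcon
      rcases hcon with ⟨x, hx, h⟩ | ⟨x, hx, h⟩
      · apply hb'.2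
        rw [← h, hδ2]
        exact Finset.mem_union_right _ (hμY x)
      · apply hb'.2
        rw [← h, G.inv_inv, hδ1]
        exact Finset.mem_union_left _ x.2
    · intro v hv
      rw [Finset.card_eq_one]
      rw [Finset.mem_union] at hv
      by_cases hvX : v ∈ X
      · have hvY : v ∉ Y := Finset.disjoint_left.1 hXY hvX
        refine ⟨δ ⟨v, hvX⟩, ?_⟩
        ext d
        simp only [Finset.mem_filter, Finset.mem_insert, Finset.mem_union, Finset.mem_image,
          Finset.mem_univ, true_and, Finset.mem_singleton]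
        constructor
        · rintro ⟨h | ⟨x, h⟩ | ⟨x, h⟩, h2⟩
          · exfalso; apply hvY; rw [← h2, h]; exact hp
          · have : x = ⟨v, hvX⟩ := by
              apply Subtype.ext
              rw [← hδ1 x, h]; exact h2
            rw [← h, this]
          · exfalso; apply hvY; rw [← h2, ← h, hδ2]; exact hμY x
        · intro h
          subst h
          exact ⟨Or.inr (Or.inl ⟨_, rfl⟩), hδ1 _⟩
      · have hvY : v ∈ Y := by tauto
        by_cases hvp : v = G.att b
        · refine ⟨b, ?_⟩
          ext d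
          simp only [Finset.mem_filter, Finset.mem_insert, Finset.mem_union, Finset.mem_image,
            Finset.mem_univ, true_and, Finset.mem_singleton]
          constructor
          · rintro ⟨h | ⟨x, h⟩ | ⟨x, h⟩, h2⟩
            · exact h
            · exfalso; apply hvX; rw [← h2, ← h, hδ1]; exact x.2
            · exfalso; apply hμp x; rw [← hδ2, h, h2, hvp]
          · intro h
            subst h
            exact ⟨Or.inl rfl, hvp.symm⟩
        · obtain ⟨x0, hx0⟩ := hsurj v hvY hvp
          refine ⟨G.inv (δ x0), ?_⟩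
          ext d
          simp only [Finset.mem_filter, Finset.mem_insert, Finset.mem_union, Finset.mem_image,
            Finset.mem_univ, true_and, Finset.mem_singleton]
          constructor
          · rintro ⟨h | ⟨x, h⟩ | ⟨x, h⟩, h2⟩
            · exfalso; apply hvp; rw [← h2, h]
            · exfalso; apply hvX; rw [← h2, ← h, hδ1]; exact x.2
            · have : x = x0 := by
                apply hμi
                rw [hx0, ← hδ2, h, h2]
              rw [← h, this]
          · intro h
            subst h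
            refine ⟨Or.inr (Or.inr ⟨_, rfl⟩), ?_⟩
            rw [hδ2, hx0])
  rw [Finset.card_union_of_disjoint hXY] at hK1
  have := hXne.card_pos
  omega

end Pool.Agent.H87.F14
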