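import Pool.Agent.H32.F14.Base

/-!
Part A8 of MP_39c6f6_co : critical sets with five boundary edges are single vertices.
-/

set_option autoImplicit false
set_option linter.unusedSectionVars false
set_option linter.unusedVariables false

noncomputable section

open Classical

namespace Pool.Agent.H87.F14

open Pool.Agent.H32.F14

section
variable {V D : Type} [Fintype V] [Fintype D]

theorem mem_dartsOn (G : DG V D) (K : Finset V) (d : D) : d ∈ G.dartsOn K ↔ G.att d ∈ K := by
  simp [DG.dartsOn]

theorem bdry_subset (G : DG V D) (K : Finset V) : G.bdry K ⊆ G.dartsOn K := by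
  intro d hd
  rw [mem_bdry] at hd
  rw [mem_dartsOn]
  exact hd.1

/-- replace `K` by a single vertex of degree `n` -/
theorem gad_vertex (G : DG V D) (hG : MinCex G) (K : Finset V) (n : ℕ)
    (hn : n = 1 ∨ n = 3 ∨ n = 5) (hb : (G.bdry K).card = n) (hlt : n < (G.dartsOn K).card) :
    ∃ f : D → Bool, G.ValidOn Kᶜ f ∧
      (((G.bdry K).filter (fun b => f b = true)).card = 1 ∨
        ((G.bdry K).filter (fun b => f b = true)).card + 1 = n) := by
  let e : {b // b ∈ G.bdry K} ≃ Fin n := (Finset.equivFinOfCardEq hb)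
  let π : ({b // b ∈ G.bdry K} ⊕ Fin n) → ({b // b ∈ G.bdry K} ⊕ Fin n) := fun x =>
    match x with
    | Sum.inl b => Sum.inr (e b)
    | Sum.inr i => Sum.inl (e.symm i)
  have hcard : ∀ (w : Unit) (inst : DecidablePred (fun _ : Fin n => (() : Unit) = w)),
      (@Finset.filter (Fin n) (fun _ : Fin n => (() : Unit) = w) inst Finset.univ).card = n := by
    intro w inst
    have : @Finset.filter (Fin n) (fun _ : Fin n => (() : Unit) = w) inst Finset.univ =
        Finset.univ := by
      ext x
      simp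
    rw [this]
    simp
  obtain ⟨f, g, h1, h2, h3⟩ := gadget V D G hG K Unit (Fin n) (fun _ => ())
    (by intro w; rw [hcard w _]; exact hn)
    (by rw [Fintype.card_fin]; exact hlt) π
    (by intro x; cases x <;> simp [π])
    (by intro x; cases x <;> simp [π])
  refine ⟨f, h1, ?_⟩
  have h4 : ((G.bdry K).filter (fun b => f b = true)).card =
      (Finset.univ.filter (fun d : Fin n => (() : Unit) = () ∧ g d = true)).card := by
    apply Finset.card_bij (i := fun b hb' => e ⟨b, (Finset.mem_filter.1 hb').1⟩)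
    · intro b hb'
      rw [Finset.mem_filter] at hb'
      rw [Finset.mem_filter]
      refine ⟨Finset.mem_univ _, rfl, ?_⟩
      have := h3 (Sum.inl ⟨b, hb'.1⟩)
      simp only [π, Sum.elim_inr, Sum.elim_inl] at this
      rw [this]; exact hb'.2
    · intro b hb1 b' hb2 h
      have := e.injective h
      exact congrArg Subtype.val this
    · intro i hi
      rw [Finset.mem_filter] at hi
      refine ⟨(e.symm i).1, ?_, ?_⟩
      · rw [Finset.mem_filter]
        refine ⟨(e.symm i).2, ?_⟩
        have := h3 (Sum.inr i)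
        simp only [π, Sum.elim_inr, Sum.elim_inl] at this
        rw [this]; exact hi.2.2
      · simp
  have h5 := h2 ()
  rw [hcard () _] at h5
  rw [h4]
  convert h5

/-- the same, with the minority label -/
theorem gad_vertex' (G : DG V D) (hG : MinCex G) (K : Finset V) (n : ℕ)
    (hn : n = 1 ∨ n = 3 ∨ n = 5) (hb : (G.bdry K).card = n) (hlt : n < (G.dartsOn K).card) :
    ∃ (f : D → Bool) (ε : Bool) (b : D), G.ValidOn Kᶜ f ∧ b ∈ G.bdry K ∧ f b = ε ∧
      ∀ b' ∈ G.bdry K, f b' = ε → b' = b := by
  obtain ⟨f, h1, h2⟩ := gad_vertex G hG K n hn hb hlt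
  rcases h2 with h2 | h2
  · obtain ⟨b, hb'⟩ := Finset.card_eq_one.1 h2
    have hm : b ∈ (G.bdry K).filter (fun b => f b = true) := by rw [hb']; simp
    rw [Finset.mem_filter] at hm
    refine ⟨f, true, b, h1, hm.1, hm.2, ?_⟩
    intro b' hb1 hb2
    have : b' ∈ (G.bdry K).filter (fun b => f b = true) := by
      rw [Finset.mem_filter]; exact ⟨hb1, hb2⟩
    rw [hb'] at this
    simpa using this
  · have h3 : ((G.bdry K).filter (fun b => f b = false)).card = 1 := by
      have := Finset.card_filter_add_card_filter_not (s := G.bdry K) (fun b => f b = true)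
      have e : (G.bdry K).filter (fun b => ¬ (f b = true)) =
          (G.bdry K).filter (fun b => f b = false) := by
        apply Finset.filter_congr; intro b _; simp
      rw [e] at this
      omega
    obtain ⟨b, hb'⟩ := Finset.card_eq_one.1 h3
    have hm : b ∈ (G.bdry K).filter (fun b => f b = false) := by rw [hb']; simp
    rw [Finset.mem_filter] at hm
    refine ⟨f, false, b, h1, hm.1, hm.2, ?_⟩
    intro b' hb1 hb2
    have : b' ∈ (G.bdry K).filter (fun b => f b = false) := by
      rw [Finset.mem_filter]; exact ⟨hb1, hb2⟩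
    rw [hb'] at this
    simpa using this

end

theorem a8 : StmtA8 := by
  intro V D _ _ G hG K h5 hM
  by_contra hK1
  have hne : (G.bdry K).Nonempty := by
    rw [← Finset.card_pos]; omega
  obtain ⟨b0, hb0⟩ := hne
  have hb0' := (mem_bdry G K b0).1 hb0
  -- another vertex
  have : ∃ v ∈ K, v ≠ G.att b0 := by
    by_contra hcon
    push Not at hcon
    apply hK1
    rw [Finset.card_eq_one]
    refine ⟨G.att b0, ?_⟩
    ext v
    simp only [Finset.mem_singleton]
    constructor
    · intro hv; exact hcon v hv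
    · intro hv; rw [hv]; exact hb0'.1
  obtain ⟨v, hvK, hv⟩ := this
  obtain ⟨M0, hM0⟩ := hM b0 hb0
  obtain ⟨c1, c2, c3, c4⟩ := hM0
  have h1 := c4 v hvK
  obtain ⟨d, hd⟩ := Finset.card_eq_one.1 h1
  have hdm : d ∈ (insert b0 M0).filter (fun d => G.att d = v) := by rw [hd]; simp
  rw [Finset.mem_filter, Finset.mem_insert] at hdm
  have hdM : d ∈ M0 := by
    rcases hdm.1 with h | h
    · exfalso; apply hv; rw [← hdm.2, h]
    · exact h
  have hlt : 5 < (G.dartsOn K).card := by
    have hss : G.bdry K ⊂ G.dartsOn K := by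
      refine ⟨bdry_subset G K, ?_⟩
      intro hcon
      have := hcon ((mem_dartsOn G K d).2 (c2 d hdM))
      rw [mem_bdry] at this
      exact this.2 (c2 _ (c1 d hdM))
    have := Finset.card_lt_card hss
    omega
  obtain ⟨f, ε, b, hf, hb, hfb, huniq⟩ := gad_vertex' G hG K 5 (Or.inr (Or.inr rfl)) h5 hlt
  obtain ⟨M, m1, m2, m3, m4⟩ := hM b hb
  refine glue_set G hG K f hf ε M m1 m2 ?_
  intro v hv
  left
  rw [← m4 v hv]
  congr 1
  ext d
  simp only [Finset.mem_filter, mem_darts, Finset.mem_insert]
  constructor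
  · rintro ⟨h1, h2 | ⟨h2, h3⟩⟩
    · exact ⟨Or.inr h2, h1⟩
    · exact ⟨Or.inl (huniq d h2 h3), h1⟩
  · rintro ⟨h1 | h1, h2⟩
    · subst h1
      exact ⟨h2, Or.inr ⟨hb, hfb⟩⟩
    · exact ⟨h2, Or.inl h1⟩

end Pool.Agent.H87.F14
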